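import Pool.Agent.Helper47.LB.Basic

/-!
Mixed hierarchy: probability measures with a bounded density, on a measurable subset.
-/

set_option autoImplicit false

open MeasureTheory Finset

namespace Pool.Agent.Helper65.LP

open Pool.Agent.Helper47.KP (Bd pim)
open Pool.Agent.Helper47.LB

variable {X : Type} [MeasurableSpace X] {σ : Measure X} [IsProbabilityMeasure σ] {ρ : X → ℝ}
  {C : ℝ}

theorem Bd_rho (hρ : Measurable ρ) (h0 : ∀ x, 0 ≤ ρ x) (hC : ∀ x, ρ x ≤ C) : Bd ρ :=
  ⟨hρ, C, fun x => by rw [abs_of_nonneg (h0 x)]; exact hC x⟩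

theorem Bd_prod (h : Bd ρ) (ι : Type) [Fintype ι] : Bd fun y : ι → X => ∏ a, ρ (y a) :=
  Bd.prod _ fun a _ => h.comp (measurable_pi_apply a)

theorem fin_dens (h : Bd ρ) : IsFiniteMeasure (σ.withDensity fun x => ENNReal.ofReal (ρ x)) :=
  isFiniteMeasure_withDensity_ofReal (h.integrable σ).2

theorem pi_dens (h : Bd ρ) (h0 : ∀ x, 0 ≤ ρ x) (ι : Type) [Fintype ι] :
    Measure.pi (fun _ : ι => σ.withDensity fun x => ENNReal.ofReal (ρ x)) =
      (pis σ ι).withDensity fun y => ENNReal.ofReal (∏ a, ρ (y a)) := by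
  have := fin_dens (σ := σ) h
  symm
  refine (Measure.pi_eq fun s hs => ?_).symm
  rw [withDensity_apply _ (MeasurableSet.univ_pi hs),
    ← ofReal_integral_eq_lintegral_ofReal ((Bd_prod h ι).integrable _)
      (Filter.Eventually.of_forall fun y => prod_nonneg fun a _ => h0 _)]
  have e1 : ∫ y in Set.univ.pi s, ∏ a, ρ (y a) ∂(pis σ ι) =
      ∏ a, ∫ x in s a, ρ x ∂σ := by
    rw [← integral_indicator (MeasurableSet.univ_pi hs)]
    have e2 : (Set.univ.pi s).indicator (fun y : ι → X => ∏ a, ρ (y a)) =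
        fun y => ∏ a, (s a).indicator ρ (y a) := by
      funext y
      by_cases hy : y ∈ Set.univ.pi s
      · rw [Set.indicator_of_mem hy]
        refine prod_congr rfl fun a _ => ?_
        rw [Set.indicator_of_mem (hy a (Set.mem_univ a))]
      · rw [Set.indicator_of_notMem hy]
        simp only [Set.mem_pi, Set.mem_univ, true_imp_iff, not_forall] at hy
        obtain ⟨a, ha⟩ := hy
        exact (prod_eq_zero (mem_univ a) (Set.indicator_of_notMem ha _)).symm
    rw [e2, integral_fintype_prod_eq_prod (fun a x => (s a).indicator ρ x)]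
    exact prod_congr rfl fun a _ => integral_indicator (hs a)
  rw [e1, ENNReal.ofReal_prod_of_nonneg fun a _ => integral_nonneg fun x => h0 x]
  refine prod_congr rfl fun a _ => ?_
  rw [withDensity_apply _ (hs a), ← ofReal_integral_eq_lintegral_ofReal (h.integrable _)
    (Filter.Eventually.of_forall h0)]

/-- integrals over tuples of points of the subset -/
theorem int_sub {E : Set X} {σ' : Measure E} [IsProbabilityMeasure σ'] (h : Bd ρ)
    (h0 : ∀ x, 0 ≤ ρ x)
    (hmap : σ'.map Subtype.val = σ.withDensity fun x => ENNReal.ofReal (ρ x))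
    (ι : Type) [Fintype ι] {Φ : (ι → X) → ℝ} (hΦ : Bd Φ) :
    ∫ y : ι → E, Φ (fun a => (y a : X)) ∂(pis σ' ι) =
      ∫ x : ι → X, (∏ a, ρ (x a)) * Φ x ∂(pis σ ι) := by
  have hp : IsProbabilityMeasure (σ'.map (Subtype.val : E → X)) :=
    Measure.isProbabilityMeasure_map measurable_subtype_coe.aemeasurable
  have h1 : (pis σ' ι).map (fun (y : ι → E) a => (y a : X)) =
      Measure.pi fun _ : ι => σ'.map (Subtype.val : E → X) :=
    Measure.pi_map_pi fun _ => measurable_subtype_coe.aemeasurable
  have hm : Measurable fun (y : ι → E) a => (y a : X) :=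
    measurable_pi_lambda _ fun a => measurable_subtype_coe.comp (measurable_pi_apply a)
  rw [← integral_map (μ := pis σ' ι) hm.aemeasurable hΦ.meas.aestronglyMeasurable, h1]
  simp only [hmap]
  rw [pi_dens h h0 ι, integral_withDensity_eq_integral_toReal_smul
    (Bd_prod h ι).meas.ennreal_ofReal (Filter.Eventually.of_forall fun _ => ENNReal.ofReal_lt_top)]
  refine integral_congr_ae (Filter.Eventually.of_forall fun x => ?_)
  show (ENNReal.ofReal (∏ a, ρ (x a))).toReal • Φ x = _
  rw [ENNReal.toReal_ofReal (prod_nonneg fun a _ => h0 _), smul_eq_mul]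

/-- existence of the measure on the subset -/
theorem exists_sub {E : Set X} (hE : MeasurableSet E) (h : Bd ρ) (h0 : ∀ x, 0 ≤ ρ x)
    (hsupp : ∀ x, x ∉ E → ρ x = 0) (h1 : ∫ x, ρ x ∂σ = 1) :
    ∃ σ' : Measure E, IsProbabilityMeasure σ' ∧
      σ'.map Subtype.val = σ.withDensity fun x => ENNReal.ofReal (ρ x) := by
  have hmap : ((σ.withDensity fun x => ENNReal.ofReal (ρ x)).comap (Subtype.val : E → X)).map
      Subtype.val = σ.withDensity fun x => ENNReal.ofReal (ρ x) := by
    rw [map_comap_subtype_coe hE]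
    apply Measure.restrict_eq_self_of_ae_mem
    rw [ae_withDensity_iff h.meas.ennreal_ofReal]
    refine Filter.Eventually.of_forall fun x hx => ?_
    by_contra hxE
    rw [hsupp x hxE] at hx
    simp at hx
  refine ⟨_, ⟨?_⟩, hmap⟩
  have h2 := congrArg (fun μ : Measure X => μ Set.univ) hmap
  rw [Measure.map_apply measurable_subtype_coe MeasurableSet.univ, Set.preimage_univ] at h2
  rw [h2, withDensity_apply _ MeasurableSet.univ, Measure.restrict_univ,
    ← ofReal_integral_eq_lintegral_ofReal (h.integrable _) (Filter.Eventually.of_forall h0), h1,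
    ENNReal.ofReal_one]

/-- a product of nonnegative numbers near `1` -/
theorem prod_ge {ι : Type} (s : Finset ι) (a : ι → ℝ) (ha : ∀ i, 0 ≤ a i) :
    1 - ∑ i ∈ s, |a i - 1| ≤ ∏ i ∈ s, a i := by
  classical
  induction s using Finset.induction_on with
  | empty => simp
  | insert i s hi ih =>
    rw [sum_insert hi, prod_insert hi]
    have h1 : 0 ≤ ∏ i ∈ s, a i := prod_nonneg fun i _ => ha i
    have h2 : 0 ≤ ∑ i ∈ s, |a i - 1| := sum_nonneg fun i _ => abs_nonneg _
    have h3 : 1 - |a i - 1| ≤ a i := by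
      have := neg_abs_le (a i - 1)
      linarith
    have h4 := abs_nonneg (a i - 1)
    have h5 := ha i
    rcases le_or_gt (∑ i ∈ s, |a i - 1|) 1 with h | h
    · nlinarith [mul_le_mul_of_nonneg_left ih h5,
        mul_le_mul_of_nonneg_right h3 (show 0 ≤ 1 - ∑ i ∈ s, |a i - 1| by linarith),
        mul_nonneg h4 h2]
    · nlinarith [mul_nonneg h5 h1]

theorem int_abs_le {f : X → ℝ} (hf : Bd f) {v : ℝ} (hv : 0 < v) (h : ∫ x, f x ^ 2 ∂σ ≤ v) :
    ∫ x, |f x| ∂σ ≤ √v := by
  have hs : 0 < √v := Real.sqrt_pos.2 hv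
  have hss : √v * √v = v := Real.mul_self_sqrt hv.le
  have hfa : Bd fun x => |f x| := ⟨hf.meas.abs, hf.bd.imp fun C hC x => by
    rw [abs_abs]; exact hC x⟩
  have hf2 : Bd fun x => f x ^ 2 := by
    have := hf.mul hf
    simpa only [sq] using this
  calc ∫ x, |f x| ∂σ ≤ ∫ x, (f x ^ 2 / (2 * √v) + √v / 2) ∂σ := by
        apply integral_mono (hfa.integrable σ)
        · exact ((hf2.integrable σ).div_const _).add (integrable_const _)
        · intro x
          show |f x| ≤ f x ^ 2 / (2 * √v) + √v / 2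
          have h1 : 0 ≤ (|f x| - √v) ^ 2 := sq_nonneg _
          rw [div_add_div _ _ (by positivity) (by norm_num), le_div_iff₀ (by positivity),
            ← sq_abs (f x)]
          nlinarith
    _ = (∫ x, f x ^ 2 ∂σ) / (2 * √v) + √v / 2 := by
        rw [integral_add ((hf2.integrable σ).div_const _) (integrable_const _), integral_div]
        simp
    _ ≤ v / (2 * √v) + √v / 2 := by
        gcongr
    _ = √v := by
        have h2 : v / (2 * √v) = √v / 2 := by
          rw [div_eq_div_iff (by positivity) (by norm_num)]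
          linarith
        rw [h2]
        ring

/-- the mass of the conditioned measure -/
theorem mass {g : X → X → ℝ} {G v ε : ℝ} (k : Ker σ g G v ε) {j : ℕ} (z : Fin j → X) :
    (Bd fun x => ∏ i, g (z i) x) ∧ 1 - j * √v ≤ ∫ x, ∏ i, g (z i) x ∂σ ∧
      ∫ x, ∏ i, g (z i) x ∂σ ≤ G ^ j ∧ ∀ x, ∏ i, g (z i) x ≤ G ^ j := by
  have hb : ∀ i, Bd fun x => g (z i) x := fun i =>
    ⟨k.meas.comp (measurable_const.prodMk measurable_id), G, fun x => by
      rw [abs_of_nonneg (k.nonneg _ _)]; exact k.le _ _⟩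
  have hB : Bd fun x => ∏ i, g (z i) x := Bd.prod _ fun i _ => hb i
  have hle : ∀ x, ∏ i, g (z i) x ≤ G ^ j := by
    intro x
    refine (prod_le_prod (fun i _ => k.nonneg _ _) fun i _ => k.le _ _).trans ?_
    rw [prod_const, card_univ, Fintype.card_fin]
  have hb1 : ∀ i, Bd fun x => g (z i) x - 1 := fun i => by
    have := (hb i).add (Bd.const (-1))
    simpa only [sub_eq_add_neg] using this
  have hba : ∀ i, Bd fun x => |g (z i) x - 1| := fun i =>
    ⟨(hb1 i).meas.abs, (hb1 i).bd.imp fun C hC x => by rw [abs_abs]; exact hC x⟩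
  refine ⟨hB, ?_, ?_, hle⟩
  · calc 1 - j * √v ≤ 1 - ∑ i : Fin j, ∫ x, |g (z i) x - 1| ∂σ := by
          have h1 : ∑ i : Fin j, ∫ x, |g (z i) x - 1| ∂σ ≤ ∑ i : Fin j, √v :=
            sum_le_sum fun i _ => int_abs_le (hb1 i) k.v0 (k.var (z i))
          rw [sum_const, card_univ, Fintype.card_fin, nsmul_eq_mul] at h1
          linarith
      _ = ∫ x, (1 - ∑ i : Fin j, |g (z i) x - 1|) ∂σ := by
          rw [integral_sub (integrable_const _) (integrable_finsetSum _ fun i _ =>
            (hba i).integrable σ), integral_finsetSum _ fun i _ => (hba i).integrable σ]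
          simp
      _ ≤ _ := by
          apply integral_mono ((integrable_const _).sub (integrable_finsetSum _ fun i _ =>
            (hba i).integrable σ)) (hB.integrable σ)
          intro x
          exact prod_ge univ (fun i => g (z i) x) fun i => k.nonneg _ _
  · calc ∫ x, ∏ i, g (z i) x ∂σ ≤ ∫ _, G ^ j ∂σ :=
          integral_mono (hB.integrable σ) (integrable_const _) hle
      _ = G ^ j := by simp

end Pool.Agent.Helper65.LP
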