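import Pool.Agent.Helper65.LP.LQ
import Pool.Agent.Helper50.LP.Pos
import Pool.Agent.Helper50.LP.Dens

/-!
Mixed hierarchy: the constraints and the abstract bound.
-/

set_option autoImplicit false

open MeasureTheory Finset

namespace Pool.Agent.Helper65.LP

open Pool.Agent.Helper47.KP (Bd pim)
open Pool.Agent.Helper47.LB
open Pool.Agent.Helper85.LP

section

variable {X : Type} [DecidableEq X]

/-- for an injective tuple `AM` is the operator `opM` at the image -/
theorem AM_eq_image (k t : ℕ) (F : Finset X → Finset X → Finset X → ℝ) {m : ℕ} {x : Fin m → X}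
    (hx : Function.Injective x) : AM k t F x = opM k t F (univ.image x) := by
  have key : ∀ f : Finset X → ℝ, ∑ J ∈ (univ.image x).powerset, f J =
      ∑ J : Finset (Fin m), f (J.image x) := by
    intro f
    symm
    refine sum_nbij (fun J => J.image x) ?_ ?_ ?_ ?_
    · intro J _
      rw [mem_powerset]
      exact image_subset_image (subset_univ _)
    · intro J _ J' _ h
      exact image_injective hx h
    · intro S hS
      rw [mem_coe, mem_powerset] at hS
      refine ⟨univ.filter fun i => x i ∈ S, by simp, ?_⟩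
      ext y
      simp only [mem_image, mem_filter, mem_univ, true_and]
      constructor
      · rintro ⟨i, hi, rfl⟩
        exact hi
      · intro hy
        obtain ⟨i, _, rfl⟩ := mem_image.1 (hS hy)
        exact ⟨i, hy, rfl⟩
    · intro J _
      rfl
  unfold opM AM
  rw [key]
  refine sum_congr rfl fun A _ => ?_
  rw [key]
  refine sum_congr rfl fun J _ => ?_
  rw [key]
  refine sum_congr rfl fun J' _ => ?_
  rw [card_image_of_injective _ hx, card_image_of_injective _ hx, card_image_of_injective _ hx,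
    ← image_union, ← image_sdiff _ _ hx, ← compl_eq_univ_sdiff]
  have e : ((J ∪ J').image x = Aᶜ.image x) ↔ J ∪ J' = Aᶜ :=
    ⟨fun h => image_injective hx h, fun h => by rw [h]⟩
  simp only [e]

theorem Bd_AM [MeasurableSpace X] (k t : ℕ) {F : Finset X → Finset X → Finset X → ℝ}
    (hF : ∀ j p q : ℕ, Bd fun w : (Fin j → X) × (Fin p → X) × (Fin q → X) =>
      F (univ.image w.1) (univ.image w.2.1) (univ.image w.2.2)) (m : ℕ) :
    Bd fun x : Fin m → X => AM k t F x := by
  unfold AM
  refine Bd.sum _ fun A _ => Bd.sum _ fun J _ => Bd.sum _ fun J' _ => ?_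
  split_ifs with h
  · simp only [im_ord A, im_ord J, im_ord J']
    exact BdK3 hF (measurable_pi_lambda _ fun i => measurable_pi_apply _)
      (measurable_pi_lambda _ fun i => measurable_pi_apply _)
      (measurable_pi_lambda _ fun i => measurable_pi_apply _)
  · exact Bd.const 0

end

section

variable {X : Type} [MeasurableSpace X] [DecidableEq X] {σ : Measure X} [IsProbabilityMeasure σ]
  {g : X → X → ℝ} {G v ε : ℝ} {k t : ℕ} {F : Finset X → Finset X → Finset X → ℝ}

theorem LamM_le (hg : ∀ x, g x x = 0) (ht : 1 ≤ t) {N : ℝ} (hN : 0 ≤ N)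
    (hF : ∀ j p q : ℕ, Bd fun w : (Fin j → X) × (Fin p → X) × (Fin q → X) =>
      F (univ.image w.1) (univ.image w.2.1) (univ.image w.2.2))
    (hc : ∀ S : Finset X, S.Nonempty → S.card ≤ k + 2 * t →
      (∀ x ∈ S, ∀ y ∈ S, x ≠ y → g x y ≠ 0) → opM k t F S ≤ if S.card = 1 then -1 else 0) :
    LamM σ k t N g F ≤ F ∅ ∅ ∅ - N := by
  have h0 : N ^ 0 / (Nat.factorial 0 : ℝ) * ∫ x : Fin 0 → X, sf g x * AM k t F x ∂(pim σ 0) =
      F ∅ ∅ ∅ := by
    have h1 : ∀ x : Fin 0 → X, sf g x * AM k t F x = F ∅ ∅ ∅ := by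
      intro x
      have e1 : sf g x = 1 := by
        unfold sf
        simp
      have e2 : AM k t F x = F ∅ ∅ ∅ := by
        unfold AM
        rw [Fintype.sum_unique, Fintype.sum_unique, Fintype.sum_unique]
        have : (default : Finset (Fin 0)) = ∅ := Subsingleton.elim _ _
        rw [this, if_pos ⟨Subsingleton.elim _ _, by simp, by simp, by simp⟩, image_empty]
      rw [e1, e2, one_mul]
    simp only [h1]
    simp
  have hpos : ∀ m : ℕ, 1 ≤ m → m ≤ k + 2 * t → ∀ x : Fin m → X,
      sf g x * AM k t F x ≤ if m = 1 then sf g x * (-1) else 0 := by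
    intro m hm hmt x
    by_cases hs : sf g x = 0
    · rw [hs]
      simp
    have hx : Function.Injective x := by
      intro i j hij
      by_contra hne
      have := sf_pair hs hne
      rw [hij] at this
      exact this (hg _)
    have hcard : (univ.image x).card = m := by
      rw [card_image_of_injective _ hx, card_univ, Fintype.card_fin]
    have h1 := hc (univ.image x) (card_pos.1 (by omega)) (by omega) (by
      intro a ha b hb hab
      obtain ⟨i, _, rfl⟩ := mem_image.1 ha
      obtain ⟨j, _, rfl⟩ := mem_image.1 hb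
      exact sf_pair hs fun h => hab (by rw [h]))
    rw [← AM_eq_image k t F hx, hcard] at h1
    have h2 : 0 ≤ sf g x := sf_nonneg g x
    calc sf g x * AM k t F x ≤ sf g x * (if m = 1 then -1 else 0) :=
          mul_le_mul_of_nonneg_left h1 h2
      _ = _ := by split_ifs <;> simp
  have h1 : N ^ 1 / (Nat.factorial 1 : ℝ) * ∫ x : Fin 1 → X, sf g x * AM k t F x ∂(pim σ 1) ≤
      -N := by
    have e1 : ∀ x : Fin 1 → X, sf g x = 1 := by
      intro x
      unfold sf
      simp
    have e2 : ∫ x : Fin 1 → X, sf g x * AM k t F x ∂(pim σ 1) ≤ -1 := by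
      have e3 : ∫ x : Fin 1 → X, sf g x * AM k t F x ∂(pim σ 1) ≤
          ∫ _ : Fin 1 → X, (-1 : ℝ) ∂(pim σ 1) := by
        apply integral_mono
        · simp only [e1, one_mul]
          exact (Bd_AM k t hF 1).integrable _
        · exact integrable_const _
        · intro x
          have := hpos 1 le_rfl (by omega) x
          rw [if_pos rfl, e1, one_mul] at this
          simp only [e1, one_mul] at this ⊢
          exact this
      simpa using e3
    calc N ^ 1 / (Nat.factorial 1 : ℝ) * ∫ x : Fin 1 → X, sf g x * AM k t F x ∂(pim σ 1)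
        = N * ∫ x : Fin 1 → X, sf g x * AM k t F x ∂(pim σ 1) := by simp
      _ ≤ N * (-1) := mul_le_mul_of_nonneg_left e2 hN
      _ = -N := by ring
  have h2 : ∀ m ∈ range (k + 2 * t - 1), N ^ (m + 1 + 1) / (Nat.factorial (m + 1 + 1) : ℝ) *
      ∫ x : Fin (m + 1 + 1) → X, sf g x * AM k t F x ∂(pim σ (m + 1 + 1)) ≤ 0 := by
    intro m hm
    rw [mem_range] at hm
    apply mul_nonpos_of_nonneg_of_nonpos (by positivity)
    apply integral_nonpos
    intro x
    have := hpos (m + 1 + 1) (by omega) (by omega) x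
    rw [if_neg (by omega)] at this
    exact this
  unfold LamM
  have e : k + 2 * t + 1 = (k + 2 * t - 1) + 1 + 1 := by omega
  rw [e, sum_range_succ', sum_range_succ', h0]
  have h3 := sum_nonpos h2
  simp only [zero_add]
  linarith

end

section

variable {X : Type} [MetricSpace X] [CompactSpace X] [MeasurableSpace X] [BorelSpace X]
  [DecidableEq X] {σ : Measure X} [IsProbabilityMeasure σ] {g : X → X → ℝ} {G v ε : ℝ}
  {D : ℕ → ℝ} {R : X → X → Prop} {k t : ℕ} {F : Finset X → Finset X → Finset X → ℝ}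

theorem stLam : StLam := by
  intro X _ _ _ _ _ σ _ g G v ε D KD R t K hR hirr hK N hN hNv hnum
  exact Pool.Agent.Helper50.LP.Lam_nonneg KD hR hirr hK hN hNv hnum

theorem stSub : StSub := by
  intro X _ σ _ g G v ε D K E hE ρ hρ h0 C hC hC1 σ' _ hmap hCv
  exact Pool.Agent.Helper50.LP.KerD_sub K hE hρ h0 hC hC1 hmap hCv

omit [MetricSpace X] [CompactSpace X] [MeasurableSpace X] [BorelSpace X] in
theorem truncM_op (k t : ℕ) {S : Finset X} (hS : ∀ x ∈ S, ∀ y ∈ S, x ≠ y → R x y) :
    opM k t (truncM R k t F) S = opM k t F S := by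
  unfold opM
  refine sum_congr rfl fun Q hQ => sum_congr rfl fun J hJ => sum_congr rfl fun J' hJ' => ?_
  rw [mem_powerset] at hQ hJ hJ'
  by_cases hc : J ∪ J' = S \ Q ∧ Q.card ≤ k ∧ J.card ≤ t ∧ J'.card ≤ t
  · rw [if_pos hc, if_pos hc, truncM, if_pos]
    obtain ⟨h1, h2, h3, h4⟩ := hc
    have key : ∀ L : Finset X, L ⊆ J ∪ J' → L.card ≤ t → SepM R k t Q L := by
      intro L hL hLt
      rw [h1] at hL
      refine ⟨h2, hLt, ?_, ?_⟩
      · rw [disjoint_left]
        intro x hx hx'
        exact (mem_sdiff.1 (hL hx')).2 hx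
      · have hU : Q ∪ L ⊆ S := union_subset hQ (hL.trans sdiff_subset)
        exact fun x hx y hy hxy => hS x (hU hx) y (hU hy) hxy
    exact ⟨key J subset_union_left h3, key J' subset_union_right h4⟩
  · rw [if_neg hc, if_neg hc]

/-- the abstract bound -/
theorem abstract_boundM (K : KerD σ g G v ε D) (hR : IsClosed {p : X × X | R p.1 p.2})
    (hirr : ∀ x, ¬ R x x) (hsym : ∀ x y, R x y → R y x) (hgR : ∀ x y, g x y ≠ 0 → R x y)
    (hF : PM R k t F) (ht : 1 ≤ t)
    (hc : ∀ S : Finset X, S.Nonempty → S.card ≤ k + 2 * t →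
      (∀ x ∈ S, ∀ y ∈ S, x ≠ y → R x y) → opM k t F S ≤ if S.card = 1 then -1 else 0)
    {N : ℝ} (hN : 0 < N) (hNv : 1 ≤ N * v) (h4v : 4 * v ≤ 1) (hG2 : G ^ k ≤ 2)
    (hkv : 2 * (k : ℝ) * √v ≤ 1 / 2)
    (hnum : ∀ m : ℕ, 1 ≤ m → m ≤ t → ((t : ℝ) + 1) ^ 2 * 2 ^ t * G ^ (2 * t ^ 2) *
      (8 * N * v) ^ m * ((m : ℝ) + 1) ^ (2 * m) * D m ≤ 1) :
    N ≤ F ∅ ∅ ∅ := by
  have hgx : ∀ x, g x x = 0 := fun x => by
    by_contra h
    exact hirr x (hgR x x h)
  have hkv' : (k : ℝ) * √v ≤ 1 / 2 := by
    have : 0 ≤ (k : ℝ) * √v := mul_nonneg (Nat.cast_nonneg k) (Real.sqrt_nonneg v)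
    linarith
  have hpos := LamM_nonneg_of stLam stSub K hR hirr hsym hgR hF hG2 hkv' h4v hN
    (by nlinarith) hnum
  have hle := LamM_le (σ := σ) (k := k) (F := truncM R k t F) hgx ht hN.le
    (fun j p q => truncM_bd hR hirr hsym hF j p q) (by
    intro S hS hSc hSg
    have hSR : ∀ x ∈ S, ∀ y ∈ S, x ≠ y → R x y := fun x hx y hy hxy =>
      hgR x y (hSg x hx y hy hxy)
    rw [truncM_op k t hSR]
    exact hc S hS hSc hSR)
  have h0 : truncM R k t F ∅ ∅ ∅ = F ∅ ∅ ∅ := by
    rw [truncM, if_pos]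
    have : SepM R k t (∅ : Finset X) ∅ := by
      refine ⟨by simp, by simp, by simp, fun x hx => ?_⟩
      simp at hx
    exact ⟨this, this⟩
  rw [h0] at hle
  linarith

end

end Pool.Agent.Helper65.LP
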