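import Pool.Agent.Helper65.LP.Split
import Pool.Agent.Helper65.LP.Sub

/-!
Mixed hierarchy: the moment functional conditioned by separated points is a moment functional
on the closed set of the points separated from them.
-/

set_option autoImplicit false

open MeasureTheory Finset

namespace Pool.Agent.Helper65.LP

open Pool.Agent.Helper47.KP (Bd pim)
open Pool.Agent.Helper47.LB
open Pool.Agent.Helper85.LP

section

variable {X : Type} [DecidableEq X] {R : X → X → Prop} {k t j : ℕ}

theorem SepM_sub (hirr : ∀ x, ¬ R x x) (hsym : ∀ x y, R x y → R y x) {z : Fin j → X}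
    (hz : z ∈ SepT R j) (hj : j ≤ k) {E : Set X} (hE : E = {x | ∀ i, R (z i) x})
    (S : Finset E) : SepM R k t (univ.image z) (S.image Subtype.val) ↔
      SepS (fun x y : E => R x y) t S := by
  have hc : (S.image (Subtype.val : E → X)).card = S.card :=
    card_image_of_injective _ Subtype.val_injective
  unfold SepM SepS
  rw [hc]
  constructor
  · rintro ⟨-, h2, -, h4⟩
    refine ⟨h2, fun x hx y hy hxy => ?_⟩
    exact h4 _ (mem_union_right _ (mem_image_of_mem _ hx)) _
      (mem_union_right _ (mem_image_of_mem _ hy)) fun h => hxy (Subtype.ext h)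
  · rintro ⟨h2, h4⟩
    have hmem : ∀ x : E, ∀ i, R (z i) x := by
      intro x i
      have := x.2
      simp only [hE] at this
      exact this i
    refine ⟨?_, h2, ?_, ?_⟩
    · exact (card_image_le.trans (by simp)).trans hj
    · rw [disjoint_left]
      intro x hx hx'
      obtain ⟨i, -, rfl⟩ := mem_image.1 hx
      obtain ⟨y, -, hy⟩ := mem_image.1 hx'
      have := hmem y i
      rw [hy] at this
      exact hirr _ this
    · intro x hx y hy hxy
      rw [mem_union] at hx hy
      rcases hx with hx | hx <;> rcases hy with hy | hy <;>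
        obtain ⟨a, ha, rfl⟩ := mem_image.1 hx <;> obtain ⟨b, hb, rfl⟩ := mem_image.1 hy
      · exact hz a b fun h => hxy (by rw [h])
      · exact hmem b a
      · exact hsym _ _ (hmem a b)
      · exact h4 a ha b hb fun h => hxy (by rw [h])

end

section

variable {X : Type} [MetricSpace X] [CompactSpace X] [MeasurableSpace X] [BorelSpace X]
  [DecidableEq X] {σ : Measure X} [IsProbabilityMeasure σ] {g : X → X → ℝ} {G v ε : ℝ}
  {R : X → X → Prop} {k t j : ℕ} {F : Finset X → Finset X → Finset X → ℝ}

omit [CompactSpace X] [MeasurableSpace X] [BorelSpace X] in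
theorem PK_sub (hirr : ∀ x, ¬ R x x) (hsym : ∀ x y, R x y → R y x) (hF : PM R k t F)
    {z : Fin j → X} (hz : z ∈ SepT R j) (hj : j ≤ k) {E : Set X}
    (hE : E = {x | ∀ i, R (z i) x}) :
    PK (fun x y : E => R x y) t (fun J J' : Finset E =>
      F (univ.image z) (J.image Subtype.val) (J'.image Subtype.val)) := by
  have hmem : ∀ x : E, ∀ i, R (z i) x := by
    intro x i
    have := x.2
    simp only [hE] at this
    exact this i
  refine ⟨fun p q hp hq => ?_, fun S T hS hT => ?_, fun n S c hS => ?_⟩
  · have h1 := hF.cont j p q hj hp hq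
    have hc : Continuous fun w : (Fin p → E) × (Fin q → E) =>
        ((z, (fun a => (w.1 a : X)), (fun b => (w.2 b : X))) :
          (Fin j → X) × (Fin p → X) × (Fin q → X)) := by
      refine continuous_const.prodMk (Continuous.prodMk ?_ ?_)
      · exact continuous_pi fun a => continuous_subtype_val.comp
          ((continuous_apply a).comp continuous_fst)
      · exact continuous_pi fun a => continuous_subtype_val.comp
          ((continuous_apply a).comp continuous_snd)
    have h2 := h1.comp (s := SepT (fun x y : E => R x y) p ×ˢ SepT (fun x y : E => R x y) q)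
      hc.continuousOn fun w hw => ⟨hz, hw.1, hw.2, fun a b => hmem _ _, fun a b => hmem _ _⟩
    refine h2.congr fun w _ => ?_
    show F (univ.image z) ((univ.image w.1).image Subtype.val)
      ((univ.image w.2).image Subtype.val) = F (univ.image z) (univ.image fun a => (w.1 a : X))
        (univ.image fun b => (w.2 b : X))
    rw [image_image, image_image]
    rfl
  · exact hF.symm _ _ _ ((SepM_sub hirr hsym hz hj hE S).2 hS)
      ((SepM_sub hirr hsym hz hj hE T).2 hT)
  · exact hF.psd _ n (fun i => (S i).image Subtype.val) c fun i =>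
      (SepM_sub hirr hsym hz hj hE _).2 (hS i)

/-- The conditioned moment functional. -/
theorem exists_LQ (hk : Ker σ g G v ε) (hR : IsClosed {p : X × X | R p.1 p.2})
    (hirr : ∀ x, ¬ R x x) (hsym : ∀ x y, R x y → R y x) (hgR : ∀ x y, g x y ≠ 0 → R x y)
    (hF : PM R k t F) {z : Fin j → X} (hz : z ∈ SepT R j) (hj : j ≤ k) (hG : G ^ j ≤ 2)
    (hv : j * √v ≤ 1 / 2) (N : ℝ) :
    ∃ (E : Set X) (M : ℝ) (ρ : X → ℝ) (σ' : Measure E), IsClosed E ∧ 1 / 2 ≤ M ∧ M ≤ 2 ∧
      Measurable ρ ∧ (∀ x, 0 ≤ ρ x) ∧ (∀ x, ρ x ≤ 4) ∧ IsProbabilityMeasure σ' ∧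
      σ'.map Subtype.val = σ.withDensity (fun x => ENNReal.ofReal (ρ x)) ∧
      PK (fun x y : E => R x y) t (fun J J' : Finset E =>
        F (univ.image z) (J.image Subtype.val) (J'.image Subtype.val)) ∧
      LQ σ t N g (truncM R k t F (univ.image z)) z =
        Lam σ' t (N * M) (fun x y : E => g x y) (trunc (fun x y : E => R x y) t
          (fun J J' : Finset E =>
            F (univ.image z) (J.image Subtype.val) (J'.image Subtype.val))) := by
  obtain ⟨hB, hm1, hm2, hle⟩ := mass hk z
  set E : Set X := {x | ∀ i, R (z i) x} with hE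
  set ρ0 : X → ℝ := fun x => ∏ i, g (z i) x with hρ0
  set M : ℝ := ∫ x, ∏ i, g (z i) x ∂σ with hM
  have hMl : 1 / 2 ≤ M := by linarith
  have hM0 : 0 < M := by linarith
  have hMu : M ≤ 2 := hm2.trans hG
  have hEc : IsClosed E := by
    have e : E = ⋂ i : Fin j, (fun x => (z i, x)) ⁻¹' {p : X × X | R p.1 p.2} := by
      ext x
      simp [hE]
    rw [e]
    exact isClosed_iInter fun i => hR.preimage (continuous_const.prodMk continuous_id)
  have hρB : Bd fun x => ρ0 x / M := by
    have := (Bd.const (1 / M)).mul hB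
    refine (funext fun x => ?_ : (fun x => ρ0 x / M) = fun y => 1 / M * ∏ i, g (z i) y) ▸ this
    simp only [hρ0]
    ring
  have hρ00 : ∀ x, 0 ≤ ρ0 x := fun x => prod_nonneg fun i _ => hk.nonneg _ _
  have hρ0' : ∀ x, 0 ≤ ρ0 x / M := fun x => div_nonneg (hρ00 x) hM0.le
  have hρ4 : ∀ x, ρ0 x / M ≤ 4 := by
    intro x
    rw [div_le_iff₀ hM0]
    have := (hle x).trans hG
    simp only [hρ0]
    linarith
  have hsupp : ∀ x, x ∉ E → ρ0 x / M = 0 := by
    intro x hx
    simp only [hE, Set.mem_ofPred_eq, not_forall] at hx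
    obtain ⟨i, hi⟩ := hx
    have : ρ0 x = 0 := by
      refine prod_eq_zero (mem_univ i) ?_
      by_contra h
      exact hi (hgR _ _ h)
    rw [this, zero_div]
  have hint : ∫ x, ρ0 x / M ∂σ = 1 := by
    rw [integral_div]
    exact div_self hM0.ne'
  obtain ⟨σ', hσ', hmap⟩ := exists_sub hEc.measurableSet hρB hρ0' hsupp hint
  refine ⟨E, M, fun x => ρ0 x / M, σ', hEc, hMl, hMu, hρB.meas, hρ0', hρ4, hσ', hmap,
    PK_sub hirr hsym hF hz hj hE, ?_⟩
  unfold LQ Lam
  refine sum_congr rfl fun i _ => ?_
  have hKb : ∀ p q : ℕ, Bd fun w : (Fin p → X) × (Fin q → X) =>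
      truncM R k t F (univ.image z) (univ.image w.1) (univ.image w.2) := fun p q =>
    (truncM_bd hR hirr hsym hF j p q).comp (g := fun w : (Fin p → X) × (Fin q → X) =>
      (z, w.1, w.2)) (measurable_const.prodMk measurable_id)
  have hΦ : Bd fun x : Fin i → X => sf g x * AK t (truncM R k t F (univ.image z)) x :=
    (Bd_sf hk.bd).mul (Bd_AK t hKb i)
  have h1 := int_sub hρB hρ0' hmap (Fin i) hΦ
  have h2 : ∀ y : Fin i → E, sf g (fun a => (y a : X)) *
      AK t (truncM R k t F (univ.image z)) (fun a => (y a : X)) =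
      sf (fun x y : E => g x y) y * AK t (trunc (fun x y : E => R x y) t
        (fun J J' : Finset E =>
          F (univ.image z) (J.image Subtype.val) (J'.image Subtype.val))) y := by
    intro y
    have e1 : sf g (fun a => (y a : X)) = sf (fun x y : E => g x y) y := rfl
    rw [e1]
    refine congrArg (sf (fun x y : E => g x y) y * ·) ?_
    unfold AK
    refine sum_congr rfl fun J _ => sum_congr rfl fun J' _ => ?_
    by_cases hc : J ∪ J' = univ ∧ J.card ≤ t ∧ J'.card ≤ t
    · rw [if_pos hc, if_pos hc]
      have e2 : ∀ L : Finset (Fin i), (L.image fun a => (y a : X)) =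
          (L.image y).image Subtype.val := by
        intro L
        rw [image_image]
        rfl
      rw [e2, e2]
      have e3 := and_congr (SepM_sub (k := k) (t := t) hirr hsym hz hj hE (J.image y))
        (SepM_sub (k := k) (t := t) hirr hsym hz hj hE (J'.image y))
      unfold truncM trunc
      by_cases h : SepS (fun x y : E => R x y) t (J.image y) ∧
          SepS (fun x y : E => R x y) t (J'.image y)
      · rw [if_pos (e3.2 h), if_pos h]
      · rw [if_neg fun h' => h (e3.1 h'), if_neg h]
    · rw [if_neg hc, if_neg hc]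
  simp only [h2] at h1
  rw [h1]
  have h3 : ∀ x : Fin i → X, cr g z x = M ^ i * ∏ a, (ρ0 (x a) / M) := by
    intro x
    unfold cr
    rw [prod_comm]
    simp only [hρ0]
    rw [prod_div_distrib, prod_const, card_univ, Fintype.card_fin]
    field_simp
  simp only [h3]
  rw [mul_pow, ← integral_const_mul, ← integral_const_mul]
  refine integral_congr_ae (Filter.Eventually.of_forall fun x => ?_)
  show N ^ i / (i.factorial : ℝ) * (M ^ i * (∏ a, (ρ0 (x a) / M)) *
      (sf g x * AK t (truncM R k t F (univ.image z)) x)) =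
    N ^ i * M ^ i / (i.factorial : ℝ) * ((∏ a, (ρ0 (x a) / M)) *
      (sf g x * AK t (truncM R k t F (univ.image z)) x))
  ring

end

end Pool.Agent.Helper65.LP
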