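import Pool.Agent.Helper65.LP.Bound

/-!
Mixed hierarchy: the abstract bound with `k w ≤ 1 / 2`, `w` a bound of `∫ |g x - 1|`, instead of `k √v ≤ 1 / 4`.
-/

set_option autoImplicit false

open MeasureTheory Finset

namespace Pool.Agent.Helper65.LP

open Pool.Agent.Helper47.KP (Bd pim)
open Pool.Agent.Helper47.LB
open Pool.Agent.Helper85.LP

section

variable {X : Type} [MeasurableSpace X] {σ : Measure X} [IsProbabilityMeasure σ]

/-- the mass of the conditioned measure -/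
theorem massW {g : X → X → ℝ} {G v ε w : ℝ} (k : Ker σ g G v ε) (hw : ∀ x, ∫ y, |g x y - 1| ∂σ ≤ w)
    {j : ℕ} (z : Fin j → X) :
    (Bd fun x => ∏ i, g (z i) x) ∧ 1 - j * w ≤ ∫ x, ∏ i, g (z i) x ∂σ ∧
      ∫ x, ∏ i, g (z i) x ∂σ ≤ G ^ j ∧ ∀ x, ∏ i, g (z i) x ≤ G ^ j := by
  have hb : ∀ i, Bd fun x => g (z i) x := fun i =>
    ⟨k.meas.comp (measurable_const.prodMk measurable_id), G, fun x => by
      rw [abs_of_nonneg (k.nonneg _ _)]; exact k.le _ _⟩
  have hB : Bd fun x => ∏ i, g (z i) x := Bd.prod _ fun i _ => hb i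
  have hle : ∀ x, ∏ i, g (z i) x ≤ G ^ j := by
    intro x
    refine (prod_le_prod (fun i _ => k.nonneg _ _) fun i _ => k.le _ _).trans ?_
    rw [prod_const, card_univ, Fintype.card_fin]
  have hb1 : ∀ i, Bd fun x => g (z i) x - 1 := fun i => by
    have := (hb i).add (Bd.const (-1))
    simpa only [sub_eq_add_neg] using this
  have hba : ∀ i, Bd fun x => |g (z i) x - 1| := fun i =>
    ⟨(hb1 i).meas.abs, (hb1 i).bd.imp fun C hC x => by rw [abs_abs]; exact hC x⟩
  refine ⟨hB, ?_, ?_, hle⟩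
  · calc 1 - j * w ≤ 1 - ∑ i : Fin j, ∫ x, |g (z i) x - 1| ∂σ := by
          have h1 : ∑ i : Fin j, ∫ x, |g (z i) x - 1| ∂σ ≤ ∑ i : Fin j, w :=
            sum_le_sum fun i _ => hw (z i)
          rw [sum_const, card_univ, Fintype.card_fin, nsmul_eq_mul] at h1
          linarith
      _ = ∫ x, (1 - ∑ i : Fin j, |g (z i) x - 1|) ∂σ := by
          rw [integral_sub (integrable_const _) (integrable_finsetSum _ fun i _ =>
            (hba i).integrable σ), integral_finsetSum _ fun i _ => (hba i).integrable σ]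
          simp
      _ ≤ _ := by
          apply integral_mono ((integrable_const _).sub (integrable_finsetSum _ fun i _ =>
            (hba i).integrable σ)) (hB.integrable σ)
          intro x
          exact prod_ge univ (fun i => g (z i) x) fun i => k.nonneg _ _
  · calc ∫ x, ∏ i, g (z i) x ∂σ ≤ ∫ _, G ^ j ∂σ :=
          integral_mono (hB.integrable σ) (integrable_const _) hle
      _ = G ^ j := by simp

end

section

variable {X : Type} [MetricSpace X] [CompactSpace X] [MeasurableSpace X] [BorelSpace X]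
  [DecidableEq X] {σ : Measure X} [IsProbabilityMeasure σ] {g : X → X → ℝ} {G v ε w : ℝ}
  {D : ℕ → ℝ} {R : X → X → Prop} {k t j : ℕ} {F : Finset X → Finset X → Finset X → ℝ}

/-- The conditioned moment functional. -/
theorem exists_LQW (hk : Ker σ g G v ε) (hw : ∀ x, ∫ y, |g x y - 1| ∂σ ≤ w) (hR : IsClosed {p : X × X | R p.1 p.2})
    (hirr : ∀ x, ¬ R x x) (hsym : ∀ x y, R x y → R y x) (hgR : ∀ x y, g x y ≠ 0 → R x y)
    (hF : PM R k t F) {z : Fin j → X} (hz : z ∈ SepT R j) (hj : j ≤ k) (hG : G ^ j ≤ 2)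
    (hv : j * w ≤ 1 / 2) (N : ℝ) :
    ∃ (E : Set X) (M : ℝ) (ρ : X → ℝ) (σ' : Measure E), IsClosed E ∧ 1 / 2 ≤ M ∧ M ≤ 2 ∧
      Measurable ρ ∧ (∀ x, 0 ≤ ρ x) ∧ (∀ x, ρ x ≤ 4) ∧ IsProbabilityMeasure σ' ∧
      σ'.map Subtype.val = σ.withDensity (fun x => ENNReal.ofReal (ρ x)) ∧
      PK (fun x y : E => R x y) t (fun J J' : Finset E =>
        F (univ.image z) (J.image Subtype.val) (J'.image Subtype.val)) ∧
      LQ σ t N g (truncM R k t F (univ.image z)) z =
        Lam σ' t (N * M) (fun x y : E => g x y) (trunc (fun x y : E => R x y) t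
          (fun J J' : Finset E =>
            F (univ.image z) (J.image Subtype.val) (J'.image Subtype.val))) := by
  obtain ⟨hB, hm1, hm2, hle⟩ := massW hk hw z
  set E : Set X := {x | ∀ i, R (z i) x} with hE
  set ρ0 : X → ℝ := fun x => ∏ i, g (z i) x with hρ0
  set M : ℝ := ∫ x, ∏ i, g (z i) x ∂σ with hM
  have hMl : 1 / 2 ≤ M := by linarith
  have hM0 : 0 < M := by linarith
  have hMu : M ≤ 2 := hm2.trans hG
  have hEc : IsClosed E := by
    have e : E = ⋂ i : Fin j, (fun x => (z i, x)) ⁻¹' {p : X × X | R p.1 p.2} := by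
      ext x
      simp [hE]
    rw [e]
    exact isClosed_iInter fun i => hR.preimage (continuous_const.prodMk continuous_id)
  have hρB : Bd fun x => ρ0 x / M := by
    have := (Bd.const (1 / M)).mul hB
    refine (funext fun x => ?_ : (fun x => ρ0 x / M) = fun y => 1 / M * ∏ i, g (z i) y) ▸ this
    simp only [hρ0]
    ring
  have hρ00 : ∀ x, 0 ≤ ρ0 x := fun x => prod_nonneg fun i _ => hk.nonneg _ _
  have hρ0' : ∀ x, 0 ≤ ρ0 x / M := fun x => div_nonneg (hρ00 x) hM0.le
  have hρ4 : ∀ x, ρ0 x / M ≤ 4 := by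
    intro x
    rw [div_le_iff₀ hM0]
    have := (hle x).trans hG
    simp only [hρ0]
    linarith
  have hsupp : ∀ x, x ∉ E → ρ0 x / M = 0 := by
    intro x hx
    simp only [hE, Set.mem_ofPred_eq, not_forall] at hx
    obtain ⟨i, hi⟩ := hx
    have : ρ0 x = 0 := by
      refine prod_eq_zero (mem_univ i) ?_
      by_contra h
      exact hi (hgR _ _ h)
    rw [this, zero_div]
  have hint : ∫ x, ρ0 x / M ∂σ = 1 := by
    rw [integral_div]
    exact div_self hM0.ne'
  obtain ⟨σ', hσ', hmap⟩ := exists_sub hEc.measurableSet hρB hρ0' hsupp hint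
  refine ⟨E, M, fun x => ρ0 x / M, σ', hEc, hMl, hMu, hρB.meas, hρ0', hρ4, hσ', hmap,
    PK_sub hirr hsym hF hz hj hE, ?_⟩
  unfold LQ Lam
  refine sum_congr rfl fun i _ => ?_
  have hKb : ∀ p q : ℕ, Bd fun w : (Fin p → X) × (Fin q → X) =>
      truncM R k t F (univ.image z) (univ.image w.1) (univ.image w.2) := fun p q =>
    (truncM_bd hR hirr hsym hF j p q).comp (g := fun w : (Fin p → X) × (Fin q → X) =>
      (z, w.1, w.2)) (measurable_const.prodMk measurable_id)
  have hΦ : Bd fun x : Fin i → X => sf g x * AK t (truncM R k t F (univ.image z)) x :=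
    (Bd_sf hk.bd).mul (Bd_AK t hKb i)
  have h1 := int_sub hρB hρ0' hmap (Fin i) hΦ
  have h2 : ∀ y : Fin i → E, sf g (fun a => (y a : X)) *
      AK t (truncM R k t F (univ.image z)) (fun a => (y a : X)) =
      sf (fun x y : E => g x y) y * AK t (trunc (fun x y : E => R x y) t
        (fun J J' : Finset E =>
          F (univ.image z) (J.image Subtype.val) (J'.image Subtype.val))) y := by
    intro y
    have e1 : sf g (fun a => (y a : X)) = sf (fun x y : E => g x y) y := rfl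
    rw [e1]
    refine congrArg (sf (fun x y : E => g x y) y * ·) ?_
    unfold AK
    refine sum_congr rfl fun J _ => sum_congr rfl fun J' _ => ?_
    by_cases hc : J ∪ J' = univ ∧ J.card ≤ t ∧ J'.card ≤ t
    · rw [if_pos hc, if_pos hc]
      have e2 : ∀ L : Finset (Fin i), (L.image fun a => (y a : X)) =
          (L.image y).image Subtype.val := by
        intro L
        rw [image_image]
        rfl
      rw [e2, e2]
      have e3 := and_congr (SepM_sub (k := k) (t := t) hirr hsym hz hj hE (J.image y))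
        (SepM_sub (k := k) (t := t) hirr hsym hz hj hE (J'.image y))
      unfold truncM trunc
      by_cases h : SepS (fun x y : E => R x y) t (J.image y) ∧
          SepS (fun x y : E => R x y) t (J'.image y)
      · rw [if_pos (e3.2 h), if_pos h]
      · rw [if_neg fun h' => h (e3.1 h'), if_neg h]
    · rw [if_neg hc, if_neg hc]
  simp only [h2] at h1
  rw [h1]
  have h3 : ∀ x : Fin i → X, cr g z x = M ^ i * ∏ a, (ρ0 (x a) / M) := by
    intro x
    unfold cr
    rw [prod_comm]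
    simp only [hρ0]
    rw [prod_div_distrib, prod_const, card_univ, Fintype.card_fin]
    field_simp
  simp only [h3]
  rw [mul_pow, ← integral_const_mul, ← integral_const_mul]
  refine integral_congr_ae (Filter.Eventually.of_forall fun x => ?_)
  show N ^ i / (i.factorial : ℝ) * (M ^ i * (∏ a, (ρ0 (x a) / M)) *
      (sf g x * AK t (truncM R k t F (univ.image z)) x)) =
    N ^ i * M ^ i / (i.factorial : ℝ) * ((∏ a, (ρ0 (x a) / M)) *
      (sf g x * AK t (truncM R k t F (univ.image z)) x))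
  ring

theorem LQ_nonneg_ofW (hLam : StLam) (hSub : StSub) (hk : KerD σ g G v ε D)
    (hw : ∀ x, ∫ y, |g x y - 1| ∂σ ≤ w)
    (hR : IsClosed {p : X × X | R p.1 p.2}) (hirr : ∀ x, ¬ R x x)
    (hsym : ∀ x y, R x y → R y x) (hgR : ∀ x y, g x y ≠ 0 → R x y)
    (hF : PM R k t F) {z : Fin j → X} (hz : z ∈ SepT R j) (hj : j ≤ k) (hG : G ^ j ≤ 2)
    (hv : j * w ≤ 1 / 2) (h4 : 4 * v ≤ 1) {N : ℝ} (hN : 0 < N) (hNv : 1 ≤ 2 * N * v)
    (hnum : ∀ m : ℕ, 1 ≤ m → m ≤ t → ((t : ℝ) + 1) ^ 2 * 2 ^ t * G ^ (2 * t ^ 2) *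
      (8 * N * v) ^ m * ((m : ℝ) + 1) ^ (2 * m) * D m ≤ 1) :
    0 ≤ LQ σ t N g (truncM R k t F (univ.image z)) z := by
  obtain ⟨E, M, ρ, σ', hE, hM1, hM2, hρm, hρ0, hρ4, hσ', hmap, hPK, hLQ⟩ :=
    exists_LQW hk.ker hw hR hirr hsym hgR hF hz hj hG hv N
  rw [hLQ]
  have : CompactSpace E := isCompact_iff_compactSpace.1 hE.isCompact
  have hv0 := hk.ker.v0
  have hM0 : 0 < M := by linarith
  have hNMv : 0 < N * v := mul_pos hN hv0
  refine hLam (hSub hk hE.measurableSet hρm hρ0 hρ4 (by norm_num) hmap h4) ?_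
    (fun x => hirr _) hPK (mul_pos hN hM0) ?_ ?_
  · have h1 : Continuous fun p : E × E => ((p.1 : X), (p.2 : X)) :=
      (continuous_subtype_val.comp continuous_fst).prodMk
        (continuous_subtype_val.comp continuous_snd)
    exact hR.preimage h1
  · nlinarith
  · intro m hm1 hm2
    refine le_trans ?_ (hnum m hm1 hm2)
    have hG0 : 0 ≤ G := zero_le_one.trans hk.ker.one_le
    have hD := hk.D_nonneg m
    have h5 : (N * M * (4 * v)) ^ m ≤ (8 * N * v) ^ m := by
      apply pow_le_pow_left₀ (by positivity)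
      nlinarith
    gcongr

theorem LamM_nonneg_ofW (hLam : StLam) (hSub : StSub) (hk : KerD σ g G v ε D)
    (hw : ∀ x, ∫ y, |g x y - 1| ∂σ ≤ w) (hw0 : 0 ≤ w)
    (hR : IsClosed {p : X × X | R p.1 p.2}) (hirr : ∀ x, ¬ R x x)
    (hsym : ∀ x y, R x y → R y x) (hgR : ∀ x y, g x y ≠ 0 → R x y)
    (hF : PM R k t F) (hG : G ^ k ≤ 2) (hv : k * w ≤ 1 / 2) (h4 : 4 * v ≤ 1) {N : ℝ}
    (hN : 0 < N) (hNv : 1 ≤ 2 * N * v)
    (hnum : ∀ m : ℕ, 1 ≤ m → m ≤ t → ((t : ℝ) + 1) ^ 2 * 2 ^ t * G ^ (2 * t ^ 2) *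
      (8 * N * v) ^ m * ((m : ℝ) + 1) ^ (2 * m) * D m ≤ 1) :
    0 ≤ LamM σ k t N g (truncM R k t F) := by
  rw [LamM_eq hk.ker.bd hk.ker.symm hk.ker.nonneg k t N fun j p q =>
    truncM_bd hR hirr hsym hF j p q]
  refine sum_nonneg fun j hj => mul_nonneg (by positivity) (integral_nonneg fun z => ?_)
  have hjk : j ≤ k := Nat.lt_succ_iff.1 (mem_range.1 hj)
  show 0 ≤ sf g z * LQ σ t N g (truncM R k t F (univ.image z)) z
  by_cases hs : sf g z = 0
  · rw [hs, zero_mul]
  · refine mul_nonneg (sf_nonneg g z) ?_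
    refine LQ_nonneg_ofW hLam hSub hk hw hR hirr hsym hgR hF
      (fun a b hab => hgR _ _ (sf_pair hs hab)) hjk ?_ ?_ h4 hN hNv hnum
    · exact (pow_le_pow_right₀ hk.ker.one_le hjk).trans hG
    · refine le_trans ?_ hv
      have : (j : ℝ) ≤ k := by exact_mod_cast hjk
      exact mul_le_mul_of_nonneg_right this hw0

/-- the abstract bound -/
theorem abstract_boundMW (K : KerD σ g G v ε D) (hw : ∀ x, ∫ y, |g x y - 1| ∂σ ≤ w) (hR : IsClosed {p : X × X | R p.1 p.2})
    (hirr : ∀ x, ¬ R x x) (hsym : ∀ x y, R x y → R y x) (hgR : ∀ x y, g x y ≠ 0 → R x y)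
    (hF : PM R k t F) (ht : 1 ≤ t)
    (hc : ∀ S : Finset X, S.Nonempty → S.card ≤ k + 2 * t →
      (∀ x ∈ S, ∀ y ∈ S, x ≠ y → R x y) → opM k t F S ≤ if S.card = 1 then -1 else 0)
    {N : ℝ} (hN : 0 < N) (hNv : 1 ≤ N * v) (h4v : 4 * v ≤ 1) (hG2 : G ^ k ≤ 2)
    (hkw : (k : ℝ) * w ≤ 1 / 2)
    (hnum : ∀ m : ℕ, 1 ≤ m → m ≤ t → ((t : ℝ) + 1) ^ 2 * 2 ^ t * G ^ (2 * t ^ 2) *
      (8 * N * v) ^ m * ((m : ℝ) + 1) ^ (2 * m) * D m ≤ 1) :
    N ≤ F ∅ ∅ ∅ := by
  have hgx : ∀ x, g x x = 0 := fun x => by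
    by_contra h
    exact hirr x (hgR x x h)
  have hX : Nonempty X := by
    by_contra h
    rw [not_nonempty_iff] at h
    have h1 : σ Set.univ = 1 := measure_univ
    rw [Set.univ_eq_empty_iff.2 h, measure_empty] at h1
    exact zero_ne_one h1
  have hw0 : 0 ≤ w := (integral_nonneg fun y => abs_nonneg _).trans (hw (Classical.arbitrary X))
  have hpos := LamM_nonneg_ofW stLam stSub K hw hw0 hR hirr hsym hgR hF hG2 hkw h4v hN
    (by nlinarith) hnum
  have hle := LamM_le (σ := σ) (k := k) (F := truncM R k t F) hgx ht hN.le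
    (fun j p q => truncM_bd hR hirr hsym hF j p q) (by
    intro S hS hSc hSg
    have hSR : ∀ x ∈ S, ∀ y ∈ S, x ≠ y → R x y := fun x hx y hy hxy =>
      hgR x y (hSg x hx y hy hxy)
    rw [truncM_op k t hSR]
    exact hc S hS hSc hSR)
  have h0 : truncM R k t F ∅ ∅ ∅ = F ∅ ∅ ∅ := by
    rw [truncM, if_pos]
    have : SepM R k t (∅ : Finset X) ∅ := by
      refine ⟨by simp, by simp, by simp, fun x hx => ?_⟩
      simp at hx
    exact ⟨this, this⟩
  rw [h0] at hle
  linarith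

end

end Pool.Agent.Helper65.LP
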