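import Pool.Agent.Helper65.LP.Cond

/-!
Mixed hierarchy: the conditioned moment functional is nonnegative.
-/

set_option autoImplicit false

open MeasureTheory Finset

namespace Pool.Agent.Helper65.LP

open Pool.Agent.Helper47.KP (Bd pim)
open Pool.Agent.Helper47.LB
open Pool.Agent.Helper85.LP

/-- the positivity theorem of the Lasserre hierarchy with the constants `D` (block B2) -/
def StLam : Prop := ∀ {X : Type} [MetricSpace X] [CompactSpace X] [MeasurableSpace X]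
  [BorelSpace X] [DecidableEq X] {σ : Measure X} [IsProbabilityMeasure σ] {g : X → X → ℝ}
  {G v ε : ℝ} {D : ℕ → ℝ}, KerD σ g G v ε D → ∀ {R : X → X → Prop} {t : ℕ}
  {K : Finset X → Finset X → ℝ}, IsClosed {p : X × X | R p.1 p.2} → (∀ x, ¬ R x x) →
  PK R t K → ∀ {N : ℝ}, 0 < N → 1 ≤ N * v →
  (∀ m : ℕ, 1 ≤ m → m ≤ t → ((t : ℝ) + 1) ^ 2 * 2 ^ t * G ^ (2 * t ^ 2) * (N * v) ^ m *
    ((m : ℝ) + 1) ^ (2 * m) * D m ≤ 1) → 0 ≤ Lam σ t N g (trunc R t K)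

/-- transfer of the assumptions to a subset (block B2) -/
def StSub : Prop := ∀ {X : Type} [MeasurableSpace X] {σ : Measure X} [IsProbabilityMeasure σ]
  {g : X → X → ℝ} {G v ε : ℝ} {D : ℕ → ℝ}, KerD σ g G v ε D → ∀ {E : Set X}, MeasurableSet E →
  ∀ {ρ : X → ℝ}, Measurable ρ → (∀ x, 0 ≤ ρ x) → ∀ {C : ℝ}, (∀ x, ρ x ≤ C) → 1 ≤ C →
  ∀ {σ' : Measure E} [IsProbabilityMeasure σ'],
  σ'.map Subtype.val = σ.withDensity (fun x => ENNReal.ofReal (ρ x)) → C * v ≤ 1 →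
  KerD σ' (fun x y : E => g x y) G (C * v) (C * ε) D

variable {X : Type} [MetricSpace X] [CompactSpace X] [MeasurableSpace X] [BorelSpace X]
  [DecidableEq X] {σ : Measure X} [IsProbabilityMeasure σ] {g : X → X → ℝ} {G v ε : ℝ}
  {D : ℕ → ℝ} {R : X → X → Prop} {k t j : ℕ} {F : Finset X → Finset X → Finset X → ℝ}

theorem LQ_nonneg_of (hLam : StLam) (hSub : StSub) (hk : KerD σ g G v ε D)
    (hR : IsClosed {p : X × X | R p.1 p.2}) (hirr : ∀ x, ¬ R x x)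
    (hsym : ∀ x y, R x y → R y x) (hgR : ∀ x y, g x y ≠ 0 → R x y)
    (hF : PM R k t F) {z : Fin j → X} (hz : z ∈ SepT R j) (hj : j ≤ k) (hG : G ^ j ≤ 2)
    (hv : j * √v ≤ 1 / 2) (h4 : 4 * v ≤ 1) {N : ℝ} (hN : 0 < N) (hNv : 1 ≤ 2 * N * v)
    (hnum : ∀ m : ℕ, 1 ≤ m → m ≤ t → ((t : ℝ) + 1) ^ 2 * 2 ^ t * G ^ (2 * t ^ 2) *
      (8 * N * v) ^ m * ((m : ℝ) + 1) ^ (2 * m) * D m ≤ 1) :
    0 ≤ LQ σ t N g (truncM R k t F (univ.image z)) z := by
  obtain ⟨E, M, ρ, σ', hE, hM1, hM2, hρm, hρ0, hρ4, hσ', hmap, hPK, hLQ⟩ :=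
    exists_LQ hk.ker hR hirr hsym hgR hF hz hj hG hv N
  rw [hLQ]
  have : CompactSpace E := isCompact_iff_compactSpace.1 hE.isCompact
  have hv0 := hk.ker.v0
  have hM0 : 0 < M := by linarith
  have hNMv : 0 < N * v := mul_pos hN hv0
  refine hLam (hSub hk hE.measurableSet hρm hρ0 hρ4 (by norm_num) hmap h4) ?_
    (fun x => hirr _) hPK (mul_pos hN hM0) ?_ ?_
  · have h1 : Continuous fun p : E × E => ((p.1 : X), (p.2 : X)) :=
      (continuous_subtype_val.comp continuous_fst).prodMk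
        (continuous_subtype_val.comp continuous_snd)
    exact hR.preimage h1
  · nlinarith
  · intro m hm1 hm2
    refine le_trans ?_ (hnum m hm1 hm2)
    have hG0 : 0 ≤ G := zero_le_one.trans hk.ker.one_le
    have hD := hk.D_nonneg m
    have h5 : (N * M * (4 * v)) ^ m ≤ (8 * N * v) ^ m := by
      apply pow_le_pow_left₀ (by positivity)
      nlinarith
    gcongr

theorem LamM_nonneg_of (hLam : StLam) (hSub : StSub) (hk : KerD σ g G v ε D)
    (hR : IsClosed {p : X × X | R p.1 p.2}) (hirr : ∀ x, ¬ R x x)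
    (hsym : ∀ x y, R x y → R y x) (hgR : ∀ x y, g x y ≠ 0 → R x y)
    (hF : PM R k t F) (hG : G ^ k ≤ 2) (hv : k * √v ≤ 1 / 2) (h4 : 4 * v ≤ 1) {N : ℝ}
    (hN : 0 < N) (hNv : 1 ≤ 2 * N * v)
    (hnum : ∀ m : ℕ, 1 ≤ m → m ≤ t → ((t : ℝ) + 1) ^ 2 * 2 ^ t * G ^ (2 * t ^ 2) *
      (8 * N * v) ^ m * ((m : ℝ) + 1) ^ (2 * m) * D m ≤ 1) :
    0 ≤ LamM σ k t N g (truncM R k t F) := by
  rw [LamM_eq hk.ker.bd hk.ker.symm hk.ker.nonneg k t N fun j p q =>
    truncM_bd hR hirr hsym hF j p q]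
  refine sum_nonneg fun j hj => mul_nonneg (by positivity) (integral_nonneg fun z => ?_)
  have hjk : j ≤ k := Nat.lt_succ_iff.1 (mem_range.1 hj)
  show 0 ≤ sf g z * LQ σ t N g (truncM R k t F (univ.image z)) z
  by_cases hs : sf g z = 0
  · rw [hs, zero_mul]
  · refine mul_nonneg (sf_nonneg g z) ?_
    refine LQ_nonneg_of hLam hSub hk hR hirr hsym hgR hF
      (fun a b hab => hgR _ _ (sf_pair hs hab)) hjk ?_ ?_ h4 hN hNv hnum
    · exact (pow_le_pow_right₀ hk.ker.one_le hjk).trans hG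
    · refine le_trans ?_ hv
      have : (j : ℝ) ≤ k := by exact_mod_cast hjk
      exact mul_le_mul_of_nonneg_right this (Real.sqrt_nonneg _)

end Pool.Agent.Helper65.LP
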