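import Pool.Agent.Helper85.LP.Defs

/-!
Mixed hierarchy: truncation of the kernels `K Q J J'` to separated sets, measurability.
-/

set_option autoImplicit false

open MeasureTheory Finset

namespace Pool.Agent.Helper65.LP

open Pool.Agent.Helper47.KP (Bd pim)
open Pool.Agent.Helper47.LB
open Pool.Agent.Helper85.LP

section

variable {X : Type}

theorem SepM_image [DecidableEq X] {R : X → X → Prop} {k t : ℕ} (hirr : ∀ x, ¬ R x x)
    (hsym : ∀ x y, R x y → R y x) {j p : ℕ} {z : Fin j → X} {a : Fin p → X}
    (hz : Function.Injective z) (ha : Function.Injective a) :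
    SepM R k t (univ.image z) (univ.image a) ↔
      j ≤ k ∧ p ≤ t ∧ z ∈ SepT R j ∧ a ∈ SepT R p ∧ ∀ i l, R (z i) (a l) := by
  unfold SepM
  rw [Finset.card_image_of_injective _ hz, Finset.card_image_of_injective _ ha, Finset.card_univ,
    Finset.card_univ, Fintype.card_fin, Fintype.card_fin]
  constructor
  · rintro ⟨h1, h2, h3, h4⟩
    refine ⟨h1, h2, fun i l hil => ?_, fun i l hil => ?_, fun i l => ?_⟩
    · exact h4 _ (by simp) _ (by simp) fun h => hil (hz h)
    · exact h4 _ (by simp) _ (by simp) fun h => hil (ha h)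
    · refine h4 _ (by simp) _ (by simp) fun h => ?_
      exact disjoint_left.1 h3 (mem_image_of_mem z (mem_univ i))
        (h ▸ mem_image_of_mem a (mem_univ l))
  · rintro ⟨h1, h2, h3, h4, h5⟩
    refine ⟨h1, h2, ?_, ?_⟩
    · rw [disjoint_left]
      intro x hx hx'
      obtain ⟨i, -, rfl⟩ := mem_image.1 hx
      obtain ⟨l, -, hl⟩ := mem_image.1 hx'
      have := h5 i l
      rw [hl] at this
      exact hirr _ this
    · intro x hx y hy hxy
      rw [mem_union] at hx hy
      rcases hx with hx | hx <;> rcases hy with hy | hy <;>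
        obtain ⟨i, -, rfl⟩ := mem_image.1 hx <;> obtain ⟨l, -, rfl⟩ := mem_image.1 hy
      · exact h3 i l fun h => hxy (by rw [h])
      · exact h5 i l
      · exact hsym _ _ (h5 l i)
      · exact h4 i l fun h => hxy (by rw [h])

theorem meas_of_inj3 [MeasurableSpace X] [DecidableEq X]
    (hd : MeasurableSet {p : X × X | p.1 = p.2}) {K : Finset X → Finset X → Finset X → ℝ}
    (h : ∀ j p q : ℕ, Measurable (fun w : (Fin j → X) × (Fin p → X) × (Fin q → X) =>
      if Function.Injective w.1 ∧ Function.Injective w.2.1 ∧ Function.Injective w.2.2 then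
        K (univ.image w.1) (univ.image w.2.1) (univ.image w.2.2) else 0)) (j p q : ℕ) :
    Measurable (fun w : (Fin j → X) × (Fin p → X) × (Fin q → X) =>
      K (univ.image w.1) (univ.image w.2.1) (univ.image w.2.2)) := by
  classical
  have e : (fun w : (Fin j → X) × (Fin p → X) × (Fin q → X) =>
      K (univ.image w.1) (univ.image w.2.1) (univ.image w.2.2)) =
      fun w => ∑ L : Finset (Fin j), ∑ I : Finset (Fin p), ∑ J : Finset (Fin q),
      ({w : (Fin j → X) × (Fin p → X) × (Fin q → X) |
        fo w.1 = L ∧ fo w.2.1 = I ∧ fo w.2.2 = J}.indicator (fun w =>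
        if Function.Injective (fun i => w.1 (L.orderEmbOfFin rfl i)) ∧
            Function.Injective (fun i => w.2.1 (I.orderEmbOfFin rfl i)) ∧
            Function.Injective (fun i => w.2.2 (J.orderEmbOfFin rfl i)) then
          K (univ.image fun i => w.1 (L.orderEmbOfFin rfl i))
            (univ.image fun i => w.2.1 (I.orderEmbOfFin rfl i))
            (univ.image fun i => w.2.2 (J.orderEmbOfFin rfl i)) else 0)) w := by
    funext w
    rw [Finset.sum_eq_single (fo w.1), Finset.sum_eq_single (fo w.2.1),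
      Finset.sum_eq_single (fo w.2.2)]
    · rw [Set.indicator_of_mem (by simp), if_pos ⟨fo_inj w.1, fo_inj w.2.1, fo_inj w.2.2⟩,
        fo_image w.1, fo_image w.2.1, fo_image w.2.2]
    · intro J _ hJ
      exact Set.indicator_of_notMem (fun h => hJ h.2.2.symm) _
    · simp
    · intro I _ hI
      exact Finset.sum_eq_zero fun J _ => Set.indicator_of_notMem (fun h => hI h.2.1.symm) _
    · simp
    · intro I _ hI
      exact Finset.sum_eq_zero fun I _ => Finset.sum_eq_zero fun J _ =>
        Set.indicator_of_notMem (fun h => hI h.1.symm) _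
    · simp
  rw [e]
  refine Finset.measurable_sum _ fun L _ => Finset.measurable_sum _ fun I _ =>
    Finset.measurable_sum _ fun J _ => Measurable.indicator ?_ ?_
  · have hm : Measurable (fun w : (Fin j → X) × (Fin p → X) × (Fin q → X) =>
        ((fun i => w.1 (L.orderEmbOfFin rfl i) : Fin L.card → X),
          (fun i => w.2.1 (I.orderEmbOfFin rfl i) : Fin I.card → X),
          (fun i => w.2.2 (J.orderEmbOfFin rfl i) : Fin J.card → X))) :=
      (measurable_pi_iff.2 fun i => (measurable_pi_apply _).comp measurable_fst).prodMk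
        ((measurable_pi_iff.2 fun i =>
          (measurable_pi_apply _).comp (measurable_fst.comp measurable_snd)).prodMk
        (measurable_pi_iff.2 fun i =>
          (measurable_pi_apply _).comp (measurable_snd.comp measurable_snd)))
    exact (h L.card I.card J.card).comp hm
  · exact (measurable_fst (measurableSet_fo hd j L)).inter
      (((measurable_fst.comp measurable_snd) (measurableSet_fo hd p I)).inter
      ((measurable_snd.comp measurable_snd) (measurableSet_fo hd q J)))

end

section

variable {X : Type} [MetricSpace X] [CompactSpace X] [MeasurableSpace X] [BorelSpace X]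
  [DecidableEq X] {R : X → X → Prop} {k t : ℕ} {K : Finset X → Finset X → Finset X → ℝ}

omit [CompactSpace X] [MeasurableSpace X] [BorelSpace X] [DecidableEq X] in
theorem isClosed_SepTM (hR : IsClosed {p : X × X | R p.1 p.2}) (j p q : ℕ) :
    IsClosed (SepTM R j p q) := by
  have c1 : Continuous fun w : (Fin j → X) × (Fin p → X) × (Fin q → X) => w.1 := continuous_fst
  have c2 : Continuous fun w : (Fin j → X) × (Fin p → X) × (Fin q → X) => w.2.1 :=
    continuous_fst.comp continuous_snd
  have c3 : Continuous fun w : (Fin j → X) × (Fin p → X) × (Fin q → X) => w.2.2 :=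
    continuous_snd.comp continuous_snd
  have e : SepTM R j p q = ((fun w : (Fin j → X) × (Fin p → X) × (Fin q → X) => w.1) ⁻¹' SepT R j) ∩
      (((fun w : (Fin j → X) × (Fin p → X) × (Fin q → X) => w.2.1) ⁻¹' SepT R p) ∩
      (((fun w : (Fin j → X) × (Fin p → X) × (Fin q → X) => w.2.2) ⁻¹' SepT R q) ∩
      ((⋂ a : Fin j, ⋂ b : Fin p, (fun w : (Fin j → X) × (Fin p → X) × (Fin q → X) =>
        (w.1 a, w.2.1 b)) ⁻¹' {p : X × X | R p.1 p.2}) ∩
      (⋂ a : Fin j, ⋂ b : Fin q, (fun w : (Fin j → X) × (Fin p → X) × (Fin q → X) =>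
        (w.1 a, w.2.2 b)) ⁻¹' {p : X × X | R p.1 p.2})))) := by
    ext w
    simp [SepTM]
  rw [e]
  refine ((isClosed_SepT hR j).preimage c1).inter (((isClosed_SepT hR p).preimage c2).inter
    (((isClosed_SepT hR q).preimage c3).inter (IsClosed.inter ?_ ?_)))
  · refine isClosed_iInter fun a => isClosed_iInter fun b => hR.preimage ?_
    exact ((continuous_apply a).comp c1).prodMk ((continuous_apply b).comp c2)
  · refine isClosed_iInter fun a => isClosed_iInter fun b => hR.preimage ?_
    exact ((continuous_apply a).comp c1).prodMk ((continuous_apply b).comp c3)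

omit [MetricSpace X] [CompactSpace X] [MeasurableSpace X] [BorelSpace X] in
theorem exists_inj (S : Finset X) : ∃ z : Fin S.card → X, Function.Injective z ∧
    univ.image z = S := by
  refine ⟨fun i => (S.equivFin.symm i : X), ?_, ?_⟩
  · intro a b hab
    exact S.equivFin.symm.injective (Subtype.ext hab)
  · ext x
    simp only [mem_image, mem_univ, true_and]
    constructor
    · rintro ⟨i, rfl⟩
      exact (S.equivFin.symm i).2
    · intro hx
      exact ⟨S.equivFin ⟨x, hx⟩, by simp⟩

omit [MeasurableSpace X] [BorelSpace X] in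
theorem truncM_bounded (hR : IsClosed {p : X × X | R p.1 p.2}) (hirr : ∀ x, ¬ R x x)
    (hsym : ∀ x y, R x y → R y x) (hK : PM R k t K) :
    ∃ C : ℝ, ∀ Q S T, |truncM R k t K Q S T| ≤ C := by
  have h1 : ∀ j p q : ℕ, ∃ C : ℝ, 0 ≤ C ∧ (j ≤ k → p ≤ t → q ≤ t → ∀ w ∈ SepTM R j p q,
      |K (univ.image w.1) (univ.image w.2.1) (univ.image w.2.2)| ≤ C) := by
    intro j p q
    by_cases hp : j ≤ k ∧ p ≤ t ∧ q ≤ t
    · have hc : IsCompact (SepTM R j p q) := (isClosed_SepTM hR j p q).isCompact
      obtain ⟨C, hC⟩ := hc.exists_bound_of_continuousOn (hK.cont j p q hp.1 hp.2.1 hp.2.2)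
      refine ⟨max C 0, le_max_right _ _, fun _ _ _ w hw => ?_⟩
      exact (hC w hw).trans (le_max_left _ _)
    · exact ⟨0, le_rfl, fun h h' h'' => absurd ⟨h, h', h''⟩ hp⟩
  choose C hC0 hC using h1
  refine ⟨∑ j ∈ range (k + 1), ∑ p ∈ range (t + 1), ∑ q ∈ range (t + 1), C j p q,
    fun Q S T => ?_⟩
  have hnn : 0 ≤ ∑ j ∈ range (k + 1), ∑ p ∈ range (t + 1), ∑ q ∈ range (t + 1), C j p q :=
    Finset.sum_nonneg fun j _ => Finset.sum_nonneg fun p _ => Finset.sum_nonneg fun q _ =>
      hC0 j p q
  unfold truncM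
  split_ifs with h
  · obtain ⟨z, hzi, hz⟩ := exists_inj Q
    obtain ⟨a, hai, ha⟩ := exists_inj S
    obtain ⟨b, hbi, hb⟩ := exists_inj T
    have hS : SepM R k t (univ.image z) (univ.image a) := by rw [hz, ha]; exact h.1
    have hT : SepM R k t (univ.image z) (univ.image b) := by rw [hz, hb]; exact h.2
    rw [SepM_image hirr hsym hzi hai] at hS
    rw [SepM_image hirr hsym hzi hbi] at hT
    have hw := hC Q.card S.card T.card hS.1 hS.2.1 hT.2.1 (z, a, b)
      ⟨hS.2.2.1, hS.2.2.2.1, hT.2.2.2.1, hS.2.2.2.2, hT.2.2.2.2⟩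
    simp only [hz, ha, hb] at hw
    refine hw.trans ?_
    refine (Finset.single_le_sum (f := fun q => C Q.card S.card q) (fun q _ => hC0 _ _ q)
      (mem_range.2 (Nat.lt_succ_of_le hT.2.1))).trans ?_
    refine (Finset.single_le_sum (f := fun p => ∑ q ∈ range (t + 1), C Q.card p q)
      (fun p _ => Finset.sum_nonneg fun q _ => hC0 _ p q)
      (mem_range.2 (Nat.lt_succ_of_le hS.2.1))).trans ?_
    exact Finset.single_le_sum (f := fun j => ∑ p ∈ range (t + 1), ∑ q ∈ range (t + 1), C j p q)
      (fun j _ => Finset.sum_nonneg fun p _ => Finset.sum_nonneg fun q _ => hC0 j p q)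
      (mem_range.2 (Nat.lt_succ_of_le hS.1))
  · simpa using hnn

theorem truncM_bd (hR : IsClosed {p : X × X | R p.1 p.2}) (hirr : ∀ x, ¬ R x x)
    (hsym : ∀ x y, R x y → R y x) (hK : PM R k t K) (j p q : ℕ) :
    Bd fun w : (Fin j → X) × (Fin p → X) × (Fin q → X) =>
      truncM R k t K (univ.image w.1) (univ.image w.2.1) (univ.image w.2.2) := by
  classical
  obtain ⟨C, hC⟩ := truncM_bounded hR hirr hsym hK
  refine ⟨?_, C, fun w => hC _ _ _⟩
  have hd : MeasurableSet {p : X × X | p.1 = p.2} :=
    (isClosed_eq continuous_fst continuous_snd).measurableSet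
  refine meas_of_inj3 hd (K := truncM R k t K) (fun j p q => ?_) j p q
  by_cases hp : j ≤ k ∧ p ≤ t ∧ q ≤ t
  · have e : (fun w : (Fin j → X) × (Fin p → X) × (Fin q → X) =>
        if Function.Injective w.1 ∧ Function.Injective w.2.1 ∧ Function.Injective w.2.2 then
          truncM R k t K (univ.image w.1) (univ.image w.2.1) (univ.image w.2.2) else 0) =
        (SepTM R j p q).piecewise
          (fun w : (Fin j → X) × (Fin p → X) × (Fin q → X) =>
            K (univ.image w.1) (univ.image w.2.1) (univ.image w.2.2))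
          (fun _ => 0) := by
      funext w
      by_cases hw : w ∈ SepTM R j p q
      · rw [Set.piecewise_eq_of_mem _ _ _ hw]
        have i0 := inj_of_SepT hirr hw.1
        have i1 := inj_of_SepT hirr hw.2.1
        have i2 := inj_of_SepT hirr hw.2.2.1
        have s1 : SepM R k t (univ.image w.1) (univ.image w.2.1) :=
          (SepM_image hirr hsym i0 i1).2 ⟨hp.1, hp.2.1, hw.1, hw.2.1, hw.2.2.2.1⟩
        have s2 : SepM R k t (univ.image w.1) (univ.image w.2.2) :=
          (SepM_image hirr hsym i0 i2).2 ⟨hp.1, hp.2.2, hw.1, hw.2.2.1, hw.2.2.2.2⟩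
        rw [if_pos ⟨i0, i1, i2⟩, truncM, if_pos ⟨s1, s2⟩]
      · rw [Set.piecewise_eq_of_notMem _ _ _ hw]
        split_ifs with hi
        · rw [truncM, if_neg]
          rintro ⟨h1, h2⟩
          rw [SepM_image hirr hsym hi.1 hi.2.1] at h1
          rw [SepM_image hirr hsym hi.1 hi.2.2] at h2
          exact hw ⟨h1.2.2.1, h1.2.2.2.1, h2.2.2.2.1, h1.2.2.2.2, h2.2.2.2.2⟩
        · rfl
    rw [e]
    exact (hK.cont j p q hp.1 hp.2.1 hp.2.2).measurable_piecewise continuousOn_const
      (isClosed_SepTM hR j p q).measurableSet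
  · have e : (fun w : (Fin j → X) × (Fin p → X) × (Fin q → X) =>
        if Function.Injective w.1 ∧ Function.Injective w.2.1 ∧ Function.Injective w.2.2 then
          truncM R k t K (univ.image w.1) (univ.image w.2.1) (univ.image w.2.2) else 0) =
        fun _ => 0 := by
      funext w
      split_ifs with hi
      · rw [truncM, if_neg]
        rintro ⟨h1, h2⟩
        rw [SepM_image hirr hsym hi.1 hi.2.1] at h1
        rw [SepM_image hirr hsym hi.1 hi.2.2] at h2
        exact hp ⟨h1.1, h1.2.1, h2.2.1⟩
      · rfl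
    rw [e]
    exact measurable_const

end

end Pool.Agent.Helper65.LP
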