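import Pool.Agent.Helper47.LB.Ident
import Pool.Agent.Helper47.LB.Constr
import Pool.Agent.Helper65.LP.Trunc

/-!
Mixed hierarchy: the moment functional, split according to the conditioned points.
-/

set_option autoImplicit false

open MeasureTheory Finset

namespace Pool.Agent.Helper65.LP

open Pool.Agent.Helper47.KP (Bd pim)
open Pool.Agent.Helper47.LB
open Pool.Agent.Helper85.LP

section

variable {X : Type} [DecidableEq X]

theorem AK_zero {t m : ℕ} (h : 2 * t < m) (K : Finset X → Finset X → ℝ) (x : Fin m → X) :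
    AK t K x = 0 := by
  unfold AK
  refine sum_eq_zero fun J _ => sum_eq_zero fun J' _ => if_neg ?_
  rintro ⟨h1, h2, h3⟩
  have h4 := card_union_le J J'
  rw [h1, card_univ, Fintype.card_fin] at h4
  omega

/-- the inner sum is `AK` of the complementary tuple -/
theorem inner_eq {t m j i : ℕ} (e : Fin j ⊕ Fin i ≃ Fin m) {A : Finset (Fin m)}
    (he' : (univ.image fun b => e (Sum.inr b)) = Aᶜ)
    (K : Finset X → Finset X → ℝ) (x : Fin m → X) :
    (∑ J : Finset (Fin m), ∑ J' : Finset (Fin m),
      if J ∪ J' = Aᶜ ∧ J.card ≤ t ∧ J'.card ≤ t then K (J.image x) (J'.image x) else 0) =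
    AK t K fun b => x (e (Sum.inr b)) := by
  have hu : Function.Injective fun b => e (Sum.inr b) := fun a b hab =>
    Sum.inr_injective (e.injective hab)
  have key : ∀ f : Finset (Fin m) → ℝ, (∀ J, ¬ J ⊆ Aᶜ → f J = 0) →
      ∑ J, f J = ∑ L : Finset (Fin i), f (L.image fun b => e (Sum.inr b)) := by
    intro f hf
    symm
    refine sum_of_injOn (fun L : Finset (Fin i) => L.image fun b => e (Sum.inr b)) ?_ ?_ ?_ ?_
    · intro L _ L' _ h
      exact image_injective hu h
    · intro L _
      exact mem_coe.2 (mem_univ _)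
    · intro J _ hJ
      refine hf J fun hJA => hJ ?_
      refine ⟨univ.filter fun b => e (Sum.inr b) ∈ J, mem_coe.2 (mem_univ _), ?_⟩
      ext a
      simp only [mem_image, mem_filter, mem_univ, true_and]
      constructor
      · rintro ⟨b, hb, rfl⟩
        exact hb
      · intro ha
        have h4 := hJA ha
        rw [← he'] at h4
        obtain ⟨b, -, rfl⟩ := mem_image.1 h4
        exact ⟨b, ha, rfl⟩
    · intro L _
      rfl
  rw [key]
  · unfold AK
    refine sum_congr rfl fun L _ => ?_
    rw [key]
    · refine sum_congr rfl fun L' _ => ?_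
      rw [card_image_of_injective _ hu, card_image_of_injective _ hu, ← image_union, image_image,
        image_image, ← he']
      have e1 : ((L ∪ L').image (fun b => e (Sum.inr b)) = univ.image fun b => e (Sum.inr b)) ↔
          L ∪ L' = univ := ⟨fun h => image_injective hu h, fun h => by rw [h]⟩
      simp only [e1]
      rfl
    · intro J' hJ'
      refine if_neg ?_
      rintro ⟨h1, -, -⟩
      exact hJ' (h1 ▸ subset_union_right)
  · intro J hJ
    refine sum_eq_zero fun J' _ => if_neg ?_
    rintro ⟨h1, -, -⟩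
    exact hJ (h1 ▸ subset_union_left)

end

section

variable {X : Type} [MeasurableSpace X] [DecidableEq X] {σ : Measure X} [IsProbabilityMeasure σ]
  {g : X → X → ℝ}

theorem BdK3 {K : Finset X → Finset X → Finset X → ℝ}
    (hK : ∀ j p q : ℕ, Bd fun w : (Fin j → X) × (Fin p → X) × (Fin q → X) =>
      K (univ.image w.1) (univ.image w.2.1) (univ.image w.2.2))
    {Y : Type} [MeasurableSpace Y] {j p q : ℕ} {s : Y → Fin j → X} {u : Y → Fin p → X}
    {w : Y → Fin q → X} (hs : Measurable s) (hu : Measurable u) (hw : Measurable w) :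
    Bd fun y => K (univ.image (s y)) (univ.image (u y)) (univ.image (w y)) :=
  (hK j p q).comp (g := fun y => (s y, u y, w y)) (hs.prodMk (hu.prodMk hw))

omit [MeasurableSpace X] in
theorem im_ord {m : ℕ} (J : Finset (Fin m)) (x : Fin m → X) :
    J.image x = univ.image fun i : Fin J.card => x (J.orderEmbOfFin rfl i) := by
  ext y
  simp only [mem_image, mem_univ, true_and]
  constructor
  · rintro ⟨a, ha, rfl⟩
    have h1 : a ∈ Set.range (J.orderEmbOfFin rfl) := by
      rw [range_orderEmbOfFin]
      exact ha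
    obtain ⟨i, hi⟩ := h1
    exact ⟨i, by rw [hi]⟩
  · rintro ⟨i, rfl⟩
    exact ⟨_, orderEmbOfFin_mem _ _ _, rfl⟩

theorem Bd_AK3 (t : ℕ) {K : Finset X → Finset X → Finset X → ℝ}
    (hK : ∀ j p q : ℕ, Bd fun w : (Fin j → X) × (Fin p → X) × (Fin q → X) =>
      K (univ.image w.1) (univ.image w.2.1) (univ.image w.2.2)) (j i : ℕ) :
    Bd fun p : (Fin j → X) × (Fin i → X) => AK t (K (univ.image p.1)) p.2 := by
  unfold AK
  refine Bd.sum _ fun J _ => Bd.sum _ fun J' _ => ?_
  split_ifs with h
  · simp only [im_ord J, im_ord J']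
    exact BdK3 hK measurable_fst
      (measurable_pi_lambda _ fun i => (measurable_pi_apply _).comp measurable_snd)
      (measurable_pi_lambda _ fun i => (measurable_pi_apply _).comp measurable_snd)
  · exact Bd.const 0

/-- the split integral -/
noncomputable def FF (σ : Measure X) (t : ℕ) (g : X → X → ℝ)
    (K : Finset X → Finset X → Finset X → ℝ) (j i : ℕ) : ℝ :=
  ∫ z : Fin j → X, ∫ y : Fin i → X, sf g (Sum.elim z y) * AK t (K (univ.image z)) y
    ∂(pis σ (Fin i)) ∂(pis σ (Fin j))

theorem Bd_term (hg : Bd fun p : X × X => g p.1 p.2) (t : ℕ)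
    {K : Finset X → Finset X → Finset X → ℝ}
    (hK : ∀ j p q : ℕ, Bd fun w : (Fin j → X) × (Fin p → X) × (Fin q → X) =>
      K (univ.image w.1) (univ.image w.2.1) (univ.image w.2.2)) (j i : ℕ) :
    Bd fun p : (Fin j → X) × (Fin i → X) =>
      sf g (Sum.elim p.1 p.2) * AK t (K (univ.image p.1)) p.2 :=
  ((Bd_sf (ι := Fin j ⊕ Fin i) hg).comp
    (Ident.meas_elim measurable_fst measurable_snd)).mul (Bd_AK3 t hK j i)

theorem split_term (hg : Bd fun p : X × X => g p.1 p.2) (t : ℕ)
    {K : Finset X → Finset X → Finset X → ℝ}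
    (hK : ∀ j p q : ℕ, Bd fun w : (Fin j → X) × (Fin p → X) × (Fin q → X) =>
      K (univ.image w.1) (univ.image w.2.1) (univ.image w.2.2)) {m : ℕ} (A : Finset (Fin m)) :
    (Bd fun x : Fin m → X => sf g x * ∑ J : Finset (Fin m), ∑ J' : Finset (Fin m),
      if J ∪ J' = Aᶜ ∧ J.card ≤ t ∧ J'.card ≤ t then
        K (A.image x) (J.image x) (J'.image x) else 0) ∧
    ∫ x : Fin m → X, sf g x * (∑ J : Finset (Fin m), ∑ J' : Finset (Fin m),
      if J ∪ J' = Aᶜ ∧ J.card ≤ t ∧ J'.card ≤ t then
        K (A.image x) (J.image x) (J'.image x) else 0) ∂(pim σ m) =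
    FF σ t g K A.card (m - A.card) := by
  obtain ⟨e, he, he'⟩ := exists_split A
  have h1 := int_equiv σ e (Ψ := fun (z : Fin A.card → X) (y : Fin (m - A.card) → X) =>
    sf g (Sum.elim z y) * AK t (K (univ.image z)) y) (Bd_term hg t hK A.card (m - A.card))
  have hpt : ∀ x : Fin m → X, sf g x * (∑ J : Finset (Fin m), ∑ J' : Finset (Fin m),
      if J ∪ J' = Aᶜ ∧ J.card ≤ t ∧ J'.card ≤ t then
        K (A.image x) (J.image x) (J'.image x) else 0) =
      sf g (Sum.elim (fun a => x (e (Sum.inl a))) (fun b => x (e (Sum.inr b)))) *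
        AK t (K (univ.image fun a => x (e (Sum.inl a)))) (fun b => x (e (Sum.inr b))) := by
    intro x
    have h3 : Sum.elim (fun i => x (e (Sum.inl i))) (fun j => x (e (Sum.inr j))) =
        fun i => x (e i) := by
      funext i
      rcases i with i | i <;> rfl
    rw [h3, sf_equiv g e x, inner_eq e he' (K (A.image x)) x, Ident.image_split e he x]
  constructor
  · simp only [hpt]
    refine (Bd_term hg t hK A.card (m - A.card)).comp (g := fun x : Fin m → X =>
      ((fun a => x (e (Sum.inl a))), (fun b => x (e (Sum.inr b))))) ?_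
    exact (measurable_pi_lambda _ fun i => measurable_pi_apply _).prodMk
      (measurable_pi_lambda _ fun i => measurable_pi_apply _)
  · unfold FF
    rw [← h1]
    exact integral_congr_ae (Filter.Eventually.of_forall hpt)

omit [IsProbabilityMeasure σ] in
theorem FF_zero {t : ℕ} {K : Finset X → Finset X → Finset X → ℝ} {j i : ℕ} (h : 2 * t < i) :
    FF σ t g K j i = 0 := by
  unfold FF
  simp [AK_zero h]

theorem LamM_eq (hg : Bd fun p : X × X => g p.1 p.2) (hs : ∀ x y, g x y = g y x)
    (h0 : ∀ x y, 0 ≤ g x y) (k t : ℕ) (N : ℝ) {K : Finset X → Finset X → Finset X → ℝ}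
    (hK : ∀ j p q : ℕ, Bd fun w : (Fin j → X) × (Fin p → X) × (Fin q → X) =>
      K (univ.image w.1) (univ.image w.2.1) (univ.image w.2.2)) :
    LamM σ k t N g K = ∑ j ∈ range (k + 1), N ^ j / (j.factorial : ℝ) *
      ∫ z : Fin j → X, sf g z * LQ σ t N g (K (univ.image z)) z ∂(pim σ j) := by
  have hA : ∀ m : ℕ, ∫ x : Fin m → X, sf g x * AM k t K x ∂(pim σ m) =
      ∑ A : Finset (Fin m), (fun j i => if j ≤ k then FF σ t g K j i else 0) A.card
        (m - A.card) := by
    intro m
    have e0 : ∀ x : Fin m → X, sf g x * AM k t K x = ∑ A : Finset (Fin m), sf g x *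
        (if A.card ≤ k then
        ∑ J : Finset (Fin m), ∑ J' : Finset (Fin m),
        if J ∪ J' = Aᶜ ∧ J.card ≤ t ∧ J'.card ≤ t then
          K (A.image x) (J.image x) (J'.image x) else 0 else 0) := fun x => by
      unfold AM
      rw [mul_sum]
      refine sum_congr rfl fun A _ => congrArg (sf g x * ·) ?_
      by_cases hA : A.card ≤ k
      · simp only [hA, true_and, if_true]
      · simp only [hA, false_and, and_false, if_false, sum_const_zero]
    have e1 : ∀ (x : Fin m → X) (A : Finset (Fin m)), sf g x * (if A.card ≤ k then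
        ∑ J : Finset (Fin m), ∑ J' : Finset (Fin m),
        if J ∪ J' = Aᶜ ∧ J.card ≤ t ∧ J'.card ≤ t then
          K (A.image x) (J.image x) (J'.image x) else 0 else 0) =
        if A.card ≤ k then sf g x * (∑ J : Finset (Fin m), ∑ J' : Finset (Fin m),
        if J ∪ J' = Aᶜ ∧ J.card ≤ t ∧ J'.card ≤ t then
          K (A.image x) (J.image x) (J'.image x) else 0) else 0 := by
      intro x A
      split_ifs
      · rfl
      · rw [mul_zero]
    simp only [e0, e1]
    rw [integral_finsetSum]
    · refine sum_congr rfl fun A _ => ?_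
      by_cases hA : A.card ≤ k
      · simp only [if_pos hA]
        exact (split_term hg t hK A).2
      · simp only [if_neg hA, integral_zero]
    · intro A _
      by_cases hA : A.card ≤ k
      · simp only [if_pos hA]
        exact (split_term (σ := σ) hg t hK A).1.integrable _
      · simp only [if_neg hA]
        exact integrable_zero _ _ _
  unfold LamM
  rw [sum_congr rfl fun m _ => congrArg (N ^ m / (m.factorial : ℝ) * ·) (hA m)]
  refine (sum_split N (k + 2 * t) fun j i => if j ≤ k then FF σ t g K j i else 0).trans ?_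
  have hB : ∀ j i : ℕ, (if j + i ≤ k + 2 * t then N ^ j / (j.factorial : ℝ) *
      (N ^ i / (i.factorial : ℝ)) * (if j ≤ k then FF σ t g K j i else 0) else 0) =
      if j ≤ k then (if i ≤ 2 * t then N ^ j / (j.factorial : ℝ) *
        (N ^ i / (i.factorial : ℝ)) * FF σ t g K j i else 0) else 0 := by
    intro j i
    by_cases hj : j ≤ k
    · by_cases hi : i ≤ 2 * t
      · rw [if_pos (by omega), if_pos hj, if_pos hj, if_pos hi]
      · rw [if_pos hj, if_pos hj, if_neg hi, FF_zero (by omega)]
        simp
    · simp [if_neg hj]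
  simp only [hB]
  have hsub : range (k + 1) ⊆ range (k + 2 * t + 1) := by
    intro i hi
    rw [mem_range] at hi ⊢
    omega
  have hsub2 : range (2 * t + 1) ⊆ range (k + 2 * t + 1) := by
    intro i hi
    rw [mem_range] at hi ⊢
    omega
  rw [← sum_subset hsub]
  swap
  · intro j _ hj
    rw [mem_range] at hj
    refine sum_eq_zero fun i _ => if_neg (by omega)
  refine sum_congr rfl fun j hj => ?_
  rw [mem_range] at hj
  rw [← sum_subset hsub2]
  swap
  · intro i _ hi
    rw [mem_range] at hi
    rw [if_neg (show ¬ i ≤ 2 * t by omega)]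
    split_ifs <;> rfl
  have e2 : ∫ z : Fin j → X, sf g z * LQ σ t N g (K (univ.image z)) z ∂(pim σ j) =
      ∑ i ∈ range (2 * t + 1), N ^ i / (i.factorial : ℝ) * FF σ t g K j i := by
    unfold LQ
    have e3 : ∀ z : Fin j → X, sf g z * (∑ i ∈ range (2 * t + 1), N ^ i / (i.factorial : ℝ) *
        ∫ y : Fin i → X, cr g z y * (sf g y * AK t (K (univ.image z)) y) ∂(pim σ i)) =
        ∑ i ∈ range (2 * t + 1), N ^ i / (i.factorial : ℝ) *
        ∫ y : Fin i → X, sf g (Sum.elim z y) * AK t (K (univ.image z)) y ∂(pim σ i) := by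
      intro z
      rw [mul_sum]
      refine sum_congr rfl fun i _ => ?_
      rw [mul_left_comm, ← integral_const_mul]
      refine congrArg (N ^ i / (i.factorial : ℝ) * ·) ?_
      refine integral_congr_ae (Filter.Eventually.of_forall fun y => ?_)
      show sf g z * (cr g z y * (sf g y * AK t (K (univ.image z)) y)) =
        sf g (Sum.elim z y) * AK t (K (univ.image z)) y
      rw [sf_elim hs h0]
      ring
    simp only [e3]
    rw [integral_finsetSum]
    · refine sum_congr rfl fun i _ => ?_
      rw [integral_const_mul]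
      rfl
    · intro i _
      exact (((Bd_term hg t hK j i).integral (pim σ i)).integrable _).const_mul _
  rw [e2, mul_sum]
  refine sum_congr rfl fun i hi => ?_
  rw [mem_range] at hi
  rw [if_pos (show j ≤ k by omega), if_pos (show i ≤ 2 * t by omega)]
  ring

end

end Pool.Agent.Helper65.LP
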